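import Mathlib

/-!
# Poset tournaments are not bounded

Poset tournaments of clique number at most two can have arbitrarily large dichromatic number.
-/


open Finset

namespace Pool.Agent.Results.MP_265233_co.PosetTournaments

/-! ## One epoch -/

/-- four points of one class and one colour with digits `0, 3, 1, 2`, nothing of the class with a
digit at most `3` lying between the first two -/
def Hit {n k : ℕ} {K : Type} (c : Fin n → K) (d : Fin n → Fin 5) (f : Fin n → Fin k) : Prop :=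
  ∃ i j p q : Fin n, i < j ∧ j < p ∧ p < q ∧ f i = f j ∧ f i = f q ∧
    c i = c j ∧ c i = c p ∧ c i = c q ∧ d i = 0 ∧ d j = 3 ∧ d p = 1 ∧ d q = 2 ∧
    ∀ t, i < t → t < j → c t = c i → d t = 4

section epoch

variable {n : ℕ} {K : Type} [DecidableEq K] (c : Fin n → K) (w : ℕ)

/-- a class -/
def C (κ : K) : Finset (Fin n) := univ.filter fun i => c i = κ

/-- the blocks -/
abbrev Blk := Σ κ : K, Fin ((C c κ).card / w)

theorem idx_lt (β : Blk c w) (s : Fin w) : (β.2 : ℕ) * w + s < (C c β.1).card := by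
  have h1 : (β.2 : ℕ) + 1 ≤ (C c β.1).card / w := β.2.2
  have h2 : ((β.2 : ℕ) + 1) * w ≤ (C c β.1).card :=
    (Nat.mul_le_mul_right w h1).trans (Nat.div_mul_le_self _ _)
  have h3 := s.2
  nlinarith

/-- the points of a block -/
def pt (x : Blk c w × Fin w) : Fin n :=
  (C c x.1.1).orderEmbOfFin rfl ⟨(x.1.2 : ℕ) * w + x.2, idx_lt c w x.1 x.2⟩

theorem c_pt (x : Blk c w × Fin w) : c (pt c w x) = x.1.1 := by
  have := (C c x.1.1).orderEmbOfFin_mem rfl ⟨(x.1.2 : ℕ) * w + x.2, idx_lt c w x.1 x.2⟩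
  simpa [C, pt] using this

theorem pt_inj : Function.Injective (pt c w) := by
  rintro ⟨⟨κ, b⟩, s⟩ ⟨⟨κ', b'⟩, s'⟩ h
  have h1 := c_pt c w ⟨⟨κ, b⟩, s⟩
  rw [h] at h1
  have h1' := (c_pt c w ⟨⟨κ', b'⟩, s'⟩).symm.trans h1
  simp only at h1'
  subst h1'
  have h2 := (C c κ').orderEmbOfFin rfl |>.injective h
  simp only [Fin.mk.injEq] at h2
  have hw : 0 < w := Nat.pos_of_ne_zero (fun h0 => by have := s.2; omega)
  have h3 : (b : ℕ) = b' := by
    have e1 : ((b : ℕ) * w + s) / w = b := by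
      rw [mul_comm, Nat.mul_add_div hw, Nat.div_eq_of_lt s.2, add_zero]
    have e2 : ((b' : ℕ) * w + s') / w = b' := by
      rw [mul_comm, Nat.mul_add_div hw, Nat.div_eq_of_lt s'.2, add_zero]
    rw [← e1, ← e2, h2]
  have h4 : b = b' := Fin.ext h3
  subst h4
  have h5 : s = s' := Fin.ext (by omega)
  rw [h5]

theorem pt_lt (β : Blk c w) {s s' : Fin w} (h : s < s') : pt c w (β, s) < pt c w (β, s') := by
  unfold pt
  rw [OrderEmbedding.lt_iff_lt]
  simp only [Fin.mk_lt_mk]
  have : (s : ℕ) < s' := h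
  omega

theorem pt_between (β : Blk c w) {s s' : Fin w} {t : Fin n} (h1 : pt c w (β, s) < t)
    (h2 : t < pt c w (β, s')) (h3 : c t = β.1) : ∃ s'', s < s'' ∧ s'' < s' ∧ t = pt c w (β, s'') := by
  have ht : t ∈ C c β.1 := by simp [C, h3]
  have : t ∈ Set.range ((C c β.1).orderEmbOfFin rfl) := by
    rw [Finset.range_orderEmbOfFin]; exact ht
  obtain ⟨m, rfl⟩ := this
  unfold pt at h1 h2
  rw [OrderEmbedding.lt_iff_lt] at h1 h2
  have h1' : (β.2 : ℕ) * w + s < m := h1
  have h2' : (m : ℕ) < (β.2 : ℕ) * w + s' := h2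
  have hs' := s'.2
  refine ⟨⟨(m : ℕ) - (β.2 : ℕ) * w, by omega⟩, ?_, ?_, ?_⟩
  · show (s : ℕ) < _
    simp only
    omega
  · show _ < (s' : ℕ)
    simp only
    omega
  · unfold pt
    congr 1
    apply Fin.ext
    simp only
    omega

theorem card_blk [Fintype K] : ∀ N : ℕ, n = w * N → 0 < w → N - Fintype.card K ≤ Fintype.card (Blk c w) := by
  intro N hN hw
  have h1 : Fintype.card (Blk c w) = ∑ κ : K, (C c κ).card / w := by
    simp [Blk]
  rw [h1]
  have h2 : ∑ κ : K, (C c κ).card = n := by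
    have := Finset.card_eq_sum_card_fiberwise (s := (univ : Finset (Fin n))) (t := (univ : Finset K))
      (f := c) (fun _ _ => by simp)
    simp only [Finset.card_univ, Fintype.card_fin] at this
    exact this.symm
  have h3 : ∀ κ : K, (C c κ).card ≤ w * ((C c κ).card / w) + w := by
    intro κ
    have := Nat.div_add_mod (C c κ).card w
    have := Nat.mod_lt (C c κ).card hw
    omega
  have h4 : n ≤ w * (∑ κ : K, (C c κ).card / w) + w * Fintype.card K := by
    calc n = ∑ κ : K, (C c κ).card := h2.symm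
      _ ≤ ∑ κ : K, (w * ((C c κ).card / w) + w) := Finset.sum_le_sum fun κ _ => h3 κ
      _ = _ := by
        rw [Finset.sum_add_distrib, ← Finset.mul_sum]
        simp [mul_comm]
  rw [← mul_add] at h4
  have h5 := Nat.le_of_mul_le_mul_left (hN.ge.trans h4) hw
  omega

/-- in each block some pattern of digits gives a hit -/
theorem exists_pattern {k : ℕ} (f : Fin n → Fin k) (β : Blk c (3 * k + 1)) :
    ∃ σ : Fin (3 * k + 1) → Fin 5, ∀ d : Fin n → Fin 5,
      (fun s => d (pt c (3 * k + 1) (β, s))) = σ → Hit c d f := by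
  obtain ⟨y, hy⟩ := Fintype.exists_lt_card_fiber_of_mul_lt_card
    (f := fun s : Fin (3 * k + 1) => f (pt c (3 * k + 1) (β, s))) (n := 3)
    (by simp only [Fintype.card_fin]; omega)
  let e := (univ.filter fun s : Fin (3 * k + 1) => f (pt c (3 * k + 1) (β, s)) = y).orderEmbOfCardLe
    (k := 4) (by omega)
  have he : ∀ a, f (pt c (3 * k + 1) (β, e a)) = y := by
    intro a
    have := Finset.orderEmbOfCardLe_mem
      (univ.filter fun s : Fin (3 * k + 1) => f (pt c (3 * k + 1) (β, s)) = y)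
      (k := 4) (by omega) a
    simpa using this
  have hlt : ∀ a b : Fin 4, a < b → e a < e b := fun a b h => e.lt_iff_lt.2 h
  have hne : ∀ a b : Fin 4, a ≠ b → e a ≠ e b := fun a b h h' => h (e.injective h')
  refine ⟨fun s => if s = e 0 then 0 else if s = e 1 then 3 else if s = e 2 then 1 else
    if s = e 3 then 2 else 4, ?_⟩
  intro d hd
  have hd' : ∀ s, d (pt c (3 * k + 1) (β, s)) = if s = e 0 then 0 else if s = e 1 then 3 else
    if s = e 2 then 1 else if s = e 3 then 2 else 4 := fun s => congrFun hd s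
  refine ⟨pt c _ (β, e 0), pt c _ (β, e 1), pt c _ (β, e 2), pt c _ (β, e 3),
    pt_lt c _ β (hlt 0 1 (by decide)), pt_lt c _ β (hlt 1 2 (by decide)),
    pt_lt c _ β (hlt 2 3 (by decide)), ?_, ?_, ?_, ?_, ?_, ?_, ?_, ?_, ?_, ?_⟩
  · rw [he, he]
  · rw [he, he]
  · exact (c_pt c _ (β, e 0)).trans (c_pt c _ (β, e 1)).symm
  · exact (c_pt c _ (β, e 0)).trans (c_pt c _ (β, e 2)).symm
  · exact (c_pt c _ (β, e 0)).trans (c_pt c _ (β, e 3)).symm
  · rw [hd', if_pos rfl]
  · rw [hd', if_neg (hne 1 0 (by decide)), if_pos rfl]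
  · rw [hd', if_neg (hne 2 0 (by decide)), if_neg (hne 2 1 (by decide)), if_pos rfl]
  · rw [hd', if_neg (hne 3 0 (by decide)), if_neg (hne 3 1 (by decide)),
      if_neg (hne 3 2 (by decide)), if_pos rfl]
  · intro t h1 h2 h3
    obtain ⟨s'', h4, h5, rfl⟩ := pt_between c _ β h1 h2 (h3.trans (c_pt c _ (β, e 0)))
    have h6 := h5.trans (hlt 1 2 (by decide))
    have h7 := h6.trans (hlt 2 3 (by decide))
    rw [hd', if_neg h4.ne', if_neg h5.ne, if_neg h6.ne, if_neg h7.ne]

/-- functions missing a pattern on each block -/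
theorem card_miss [Fintype K] (w : ℕ) (σ : Blk c w → Fin w → Fin 5) :
    (univ.filter fun d : Fin n → Fin 5 => ∀ β, (fun s => d (pt c w (β, s))) ≠ σ β).card *
      (5 ^ w) ^ Fintype.card (Blk c w) ≤ (5 ^ w - 1) ^ Fintype.card (Blk c w) * 5 ^ n := by
  classical
  let R := {x : Fin n // x ∉ Set.range (pt c w)}
  have hcard : Fintype.card (Blk c w) * w + Fintype.card R = n := by
    have h1 : Fintype.card {x : Fin n // x ∈ Set.range (pt c w)} = Fintype.card (Blk c w) * w := by
      have := Fintype.card_congr (Equiv.ofInjective _ (pt_inj c w))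
      rw [Fintype.card_prod, Fintype.card_fin] at this
      rw [this]
    have h2 := Fintype.card_subtype_compl (fun x : Fin n => x ∈ Set.range (pt c w))
    have h3 := Fintype.card_subtype_le (fun x : Fin n => x ∈ Set.range (pt c w))
    rw [Fintype.card_fin] at h2 h3
    rw [← h1]
    have h4 : Fintype.card R = n - Fintype.card {x : Fin n // x ∈ Set.range (pt c w)} := h2
    omega
  have hle : (univ.filter fun d : Fin n → Fin 5 => ∀ β, (fun s => d (pt c w (β, s))) ≠ σ β).card ≤
      (5 ^ w - 1) ^ Fintype.card (Blk c w) * 5 ^ Fintype.card R := by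
    have hc : Fintype.card ((∀ β : Blk c w, {g : Fin w → Fin 5 // g ≠ σ β}) × (R → Fin 5)) =
        (5 ^ w - 1) ^ Fintype.card (Blk c w) * 5 ^ Fintype.card R := by
      rw [Fintype.card_prod, Fintype.card_pi, Fintype.card_fun, Fintype.card_fin]
      congr 1
      rw [Finset.prod_congr rfl (g := fun _ => 5 ^ w - 1), Finset.prod_const, Finset.card_univ]
      intro β _
      rw [Fintype.card_subtype_compl]
      simp
    rw [← hc, ← Fintype.card_subtype]
    refine Fintype.card_le_of_injective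
      (fun d => (fun β => ⟨fun s => d.1 (pt c w (β, s)), d.2 β⟩, fun x => d.1 x.1)) ?_
    rintro ⟨d, hd⟩ ⟨d', hd'⟩ h
    simp only [Prod.mk.injEq] at h
    obtain ⟨h1, h2⟩ := h
    apply Subtype.ext
    funext x
    show d x = d' x
    by_cases hx : x ∈ Set.range (pt c w)
    · obtain ⟨⟨β, s⟩, rfl⟩ := hx
      have := congrFun h1 β
      simp only [Subtype.mk.injEq] at this
      exact congrFun this s
    · exact congrFun h2 ⟨x, hx⟩
  calc _ ≤ ((5 ^ w - 1) ^ Fintype.card (Blk c w) * 5 ^ Fintype.card R) *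
        (5 ^ w) ^ Fintype.card (Blk c w) := Nat.mul_le_mul_right _ hle
    _ = (5 ^ w - 1) ^ Fintype.card (Blk c w) * 5 ^ (Fintype.card (Blk c w) * w + Fintype.card R) := by
      rw [pow_add, ← pow_mul]; ring
    _ = _ := by rw [hcard]

/-- the ratio of survival -/
noncomputable def q (k : ℕ) : ℝ := ((5 ^ (3 * k + 1) - 1 : ℕ) : ℝ) / ((5 ^ (3 * k + 1) : ℕ) : ℝ)

theorem q_pos (k : ℕ) : 0 < q k := by
  unfold q
  apply div_pos
  · have h : 5 ^ 1 ≤ 5 ^ (3 * k + 1) := Nat.pow_le_pow_right (by norm_num) (by omega)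
    exact_mod_cast (by omega : 0 < 5 ^ (3 * k + 1) - 1)
  · exact_mod_cast Nat.pos_of_ne_zero (by positivity)

theorem q_lt_one (k : ℕ) : q k < 1 := by
  unfold q
  have h : 0 < 5 ^ (3 * k + 1) := Nat.pos_of_ne_zero (by positivity)
  rw [div_lt_one (by exact_mod_cast h)]
  exact_mod_cast (by omega : 5 ^ (3 * k + 1) - 1 < 5 ^ (3 * k + 1))

/-- few digit assignments miss a given colouring -/
theorem card_not_hit [Fintype K] {k N : ℕ} (f : Fin n → Fin k) (hn : n = (3 * k + 1) * N) :
    (Nat.card {d : Fin n → Fin 5 // ¬ Hit c d f} : ℝ) ≤ q k ^ (N - Fintype.card K) * 5 ^ n := by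
  classical
  choose σ hσ using exists_pattern c f
  have h1 := card_miss c (3 * k + 1) σ
  have h2 := card_blk c (3 * k + 1) N hn (by omega)
  have h3 : Nat.card {d : Fin n → Fin 5 // ¬ Hit c d f} ≤
      (univ.filter fun d : Fin n → Fin 5 => ∀ β, (fun s => d (pt c (3 * k + 1) (β, s))) ≠ σ β).card := by
    rw [← Fintype.card_subtype, ← Nat.card_eq_fintype_card]
    refine Nat.card_le_card_of_injective
      (fun d => ⟨d.1, fun β h => d.2 (hσ β d.1 h)⟩) ?_
    intro a b h
    simp only [Subtype.mk.injEq] at h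
    exact Subtype.ext h
  set B := Fintype.card (Blk c (3 * k + 1))
  set A := (univ.filter fun d : Fin n → Fin 5 => ∀ β, (fun s => d (pt c (3 * k + 1) (β, s))) ≠ σ β).card
  have h4 : (A : ℝ) ≤ q k ^ B * 5 ^ n := by
    unfold q
    rw [div_pow, div_mul_eq_mul_div, le_div_iff₀ (by positivity)]
    exact_mod_cast h1
  have h5 : q k ^ B ≤ q k ^ (N - Fintype.card K) :=
    pow_le_pow_of_le_one (q_pos k).le (q_lt_one k).le h2
  calc (Nat.card {d : Fin n → Fin 5 // ¬ Hit c d f} : ℝ) ≤ A := by exact_mod_cast h3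
    _ ≤ q k ^ B * 5 ^ n := h4
    _ ≤ _ := mul_le_mul_of_nonneg_right h5 (by positivity)

/-- a good choice of the digits of one epoch -/
theorem exists_digit [Fintype K] {k N : ℕ} (F : Finset (Fin n → Fin k)) (hn : n = (3 * k + 1) * N) :
    ∃ d : Fin n → Fin 5, (Nat.card {f : Fin n → Fin k // f ∈ F ∧ ¬ Hit c d f} : ℝ) ≤
      F.card * q k ^ (N - Fintype.card K) := by
  classical
  by_contra hcon
  push Not at hcon
  have h1 : ∑ d : Fin n → Fin 5, (F.card * q k ^ (N - Fintype.card K) : ℝ) <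
      ∑ d : Fin n → Fin 5, (Nat.card {f : Fin n → Fin k // f ∈ F ∧ ¬ Hit c d f} : ℝ) :=
    Finset.sum_lt_sum_of_nonempty Finset.univ_nonempty (fun d _ => hcon d)
  have h2 : ∑ d : Fin n → Fin 5, (Nat.card {f : Fin n → Fin k // f ∈ F ∧ ¬ Hit c d f} : ℝ) =
      ∑ f ∈ F, (Nat.card {d : Fin n → Fin 5 // ¬ Hit c d f} : ℝ) := by
    have e1 : ∀ d : Fin n → Fin 5, (Nat.card {f : Fin n → Fin k // f ∈ F ∧ ¬ Hit c d f} : ℝ) =
        ∑ f ∈ F, if ¬ Hit c d f then (1 : ℝ) else 0 := by
      intro d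
      rw [Finset.sum_boole]
      congr 1
      rw [Nat.card_eq_fintype_card, Fintype.card_subtype]
      congr 1
      ext f
      simp
    have e2 : ∀ f : Fin n → Fin k, (Nat.card {d : Fin n → Fin 5 // ¬ Hit c d f} : ℝ) =
        ∑ d : Fin n → Fin 5, if ¬ Hit c d f then (1 : ℝ) else 0 := by
      intro f
      rw [Finset.sum_boole]
      congr 1
      rw [Nat.card_eq_fintype_card, Fintype.card_subtype]
    rw [Finset.sum_congr rfl (fun d _ => e1 d), Finset.sum_congr rfl (fun f _ => e2 f),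
      Finset.sum_comm]
  rw [h2] at h1
  have h3 : ∑ f ∈ F, (Nat.card {d : Fin n → Fin 5 // ¬ Hit c d f} : ℝ) ≤
      ∑ f ∈ F, q k ^ (N - Fintype.card K) * 5 ^ n :=
    Finset.sum_le_sum fun f _ => card_not_hit c f hn
  have h4 := h1.trans_le h3
  simp only [Finset.sum_const, Finset.card_univ, Fintype.card_fun, Fintype.card_fin, nsmul_eq_mul,
    Nat.cast_pow, Nat.cast_ofNat] at h4
  apply lt_irrefl _ (h4.trans_le (le_of_eq _))
  ring

end epoch

/-! ## All epochs -/

/-- the class of a point at an epoch -/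
def cls {n : ℕ} (D : ℕ → Fin n → Fin 5) (e : ℕ) (i : Fin n) : Fin e → Fin 5 := fun a => D a i

theorem exists_digits (n k N : ℕ) (hn : n = (3 * k + 1) * N) : ∀ E : ℕ,
    ∃ D : ℕ → Fin n → Fin 5,
      (Nat.card {f : Fin n → Fin k // ∀ e < E, ¬ Hit (cls D e) (D e) f} : ℝ) ≤
        (k : ℝ) ^ n * q k ^ (∑ e ∈ Finset.range E, (N - 5 ^ e)) := by
  classical
  intro E
  induction E with
  | zero =>
    refine ⟨fun _ _ => 0, ?_⟩
    simp
  | succ E ih =>
    obtain ⟨D, hD⟩ := ih
    let F : Finset (Fin n → Fin k) := univ.filter fun f => ∀ e < E, ¬ Hit (cls D e) (D e) f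
    obtain ⟨d, hd⟩ := exists_digit (cls D E) F hn
    refine ⟨Function.update D E d, ?_⟩
    have hF : (F.card : ℝ) ≤ (k : ℝ) ^ n * q k ^ (∑ e ∈ Finset.range E, (N - 5 ^ e)) := by
      have : (Nat.card {f : Fin n → Fin k // ∀ e < E, ¬ Hit (cls D e) (D e) f}) = F.card := by
        rw [Nat.card_eq_fintype_card, Fintype.card_subtype]
      rw [← this]; exact hD
    have hcls : ∀ e ≤ E, cls (Function.update D E d) e = cls D e := by
      intro e he
      funext i a
      have : (a : ℕ) ≠ E := by have := a.2; omega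
      simp [cls, Function.update_of_ne this]
    have hle : Nat.card {f : Fin n → Fin k // ∀ e < E + 1,
        ¬ Hit (cls (Function.update D E d) e) (Function.update D E d e) f} ≤
        Nat.card {f : Fin n → Fin k // f ∈ F ∧ ¬ Hit (cls D E) d f} := by
      refine Nat.card_le_card_of_injective (fun f => ⟨f.1, ?_, ?_⟩) ?_
      · simp only [F, Finset.mem_filter, Finset.mem_univ, true_and]
        intro e he
        have := f.2 e (by omega)
        rwa [hcls e he.le, Function.update_of_ne he.ne] at this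
      · have := f.2 E (by omega)
        rwa [hcls E le_rfl, Function.update_self] at this
      · intro a b h
        simp only [Subtype.mk.injEq] at h
        exact Subtype.ext h
    rw [Finset.sum_range_succ, pow_add]
    have hK : Fintype.card (Fin E → Fin 5) = 5 ^ E := by simp
    rw [hK] at hd
    calc _ ≤ ((Nat.card {f : Fin n → Fin k // f ∈ F ∧ ¬ Hit (cls D E) d f} : ℕ) : ℝ) := by
          exact_mod_cast hle
      _ ≤ F.card * q k ^ (N - 5 ^ E) := hd
      _ ≤ ((k : ℝ) ^ n * q k ^ (∑ e ∈ Finset.range E, (N - 5 ^ e))) * q k ^ (N - 5 ^ E) :=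
          mul_le_mul_of_nonneg_right hF (pow_nonneg (q_pos k).le _)
      _ = _ := by ring

/-- digits hitting every colouring -/
theorem exists_all (k : ℕ) : ∃ (n E : ℕ) (D : ℕ → Fin n → Fin 5), ∀ f : Fin n → Fin k,
    ∃ e < E, Hit (cls D e) (D e) f := by
  classical
  -- choose the number of epochs
  have hq := q_pos k
  have hq1 := q_lt_one k
  obtain ⟨E, hE⟩ : ∃ E : ℕ, (k : ℝ) ^ (3 * k + 1) * q k ^ E ≤ 1 / 2 := by
    have ht := (tendsto_pow_atTop_nhds_zero_of_lt_one hq.le hq1).const_mul ((k : ℝ) ^ (3 * k + 1))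
    rw [mul_zero] at ht
    exact (ht.eventually_le_const (by norm_num : (0 : ℝ) < 1 / 2)).exists
  obtain ⟨N', hN'⟩ : ∃ N' : ℕ, ((k : ℝ) ^ (3 * k + 1)) ^ (5 ^ E) * (1 / 2 : ℝ) ^ N' < 1 := by
    have ht := (tendsto_pow_atTop_nhds_zero_of_lt_one (by norm_num : (0 : ℝ) ≤ 1 / 2)
      (by norm_num)).const_mul (((k : ℝ) ^ (3 * k + 1)) ^ (5 ^ E))
    rw [mul_zero] at ht
    exact (ht.eventually_lt_const (by norm_num : (0 : ℝ) < 1)).exists
  set N := 5 ^ E + N' with hN
  obtain ⟨D, hD⟩ := exists_digits ((3 * k + 1) * N) k N rfl E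
  refine ⟨(3 * k + 1) * N, E, D, ?_⟩
  have hsum : E * N' ≤ ∑ e ∈ Finset.range E, (N - 5 ^ e) := by
    calc E * N' = ∑ e ∈ Finset.range E, N' := by simp
      _ ≤ _ := Finset.sum_le_sum fun e he => by
        have : 5 ^ e ≤ 5 ^ E := Nat.pow_le_pow_right (by norm_num) (Finset.mem_range.1 he).le
        omega
  have hlt : (Nat.card {f : Fin ((3 * k + 1) * N) → Fin k // ∀ e < E, ¬ Hit (cls D e) (D e) f} : ℝ) < 1 := by
    calc _ ≤ (k : ℝ) ^ ((3 * k + 1) * N) * q k ^ (∑ e ∈ Finset.range E, (N - 5 ^ e)) := hD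
      _ ≤ (k : ℝ) ^ ((3 * k + 1) * N) * q k ^ (E * N') :=
        mul_le_mul_of_nonneg_left (pow_le_pow_of_le_one hq.le hq1.le hsum) (by positivity)
      _ = ((k : ℝ) ^ (3 * k + 1)) ^ (5 ^ E) * ((k : ℝ) ^ (3 * k + 1) * q k ^ E) ^ N' := by
        rw [hN, pow_mul, pow_mul, pow_add, mul_pow]; ring
      _ ≤ ((k : ℝ) ^ (3 * k + 1)) ^ (5 ^ E) * (1 / 2 : ℝ) ^ N' :=
        mul_le_mul_of_nonneg_left (pow_le_pow_left₀ (by positivity) hE _) (by positivity)
      _ < 1 := hN'
  intro f
  by_contra hcon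
  push Not at hcon
  have h0 : Nat.card {f : Fin ((3 * k + 1) * N) → Fin k // ∀ e < E, ¬ Hit (cls D e) (D e) f} = 0 := by
    have : Nat.card {f : Fin ((3 * k + 1) * N) → Fin k // ∀ e < E, ¬ Hit (cls D e) (D e) f} < 1 := by
      exact_mod_cast hlt
    omega
  rw [Nat.card_eq_zero] at h0
  rcases h0 with h0 | h0
  · exact h0.false ⟨f, hcon⟩
  · exact not_finite_iff_infinite.2 h0 inferInstance

/-! ## Tournaments -/

/-- `r x y` means that the arc between `x` and `y` goes from `x` to `y` -/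
def IsTournament {V : Type} (r : V → V → Prop) : Prop :=
  (∀ x, ¬ r x x) ∧ ∀ x y, x ≠ y → (r x y ↔ ¬ r y x)

/-- for some total order, the arcs going forward are transitive -/
def IsPosetTournament {V : Type} (r : V → V → Prop) : Prop :=
  IsTournament r ∧ ∃ _ : LinearOrder V, ∀ u v w : V, u < v → v < w → r u v → r v w → r u w

/-- the backedge graph with respect to a total order -/
def backedge {V : Type} (r : V → V → Prop) (o : LinearOrder V) : SimpleGraph V where
  Adj v w := (v < w ∧ r w v) ∨ (w < v ∧ r v w)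
  symm := ⟨fun _ _ h => h.symm⟩
  loopless := ⟨fun v h => by rcases h with h | h <;> exact lt_irrefl v h.1⟩

/-- the clique number of the digraph is at most `k` -/
def CliqueNumberLE {V : Type} (r : V → V → Prop) (k : ℕ) : Prop :=
  ∃ o : LinearOrder V, (backedge r o).CliqueFree (k + 1)

/-- there is no directed cycle inside `S` -/
def AcyclicOn {V : Type} (r : V → V → Prop) (S : Set V) : Prop :=
  ∀ x, ¬ Relation.TransGen (fun a b => a ∈ S ∧ b ∈ S ∧ r a b) x x

/-- the dichromatic number is at most `k` -/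
def Dicolourable {V : Type} (r : V → V → Prop) (k : ℕ) : Prop :=
  ∃ f : V → Fin k, ∀ c, AcyclicOn r {x | f x = c}

/-- `j` is above `i` on the right and the open box between them is nonempty -/
def Far {n : ℕ} {α : Type} [LinearOrder α] (y : Fin n → α) (i j : Fin n) : Prop :=
  ∃ t, i < t ∧ t < j ∧ y i < y t ∧ y t < y j

/-- the tournament of a two-dimensional order: the pairs which are comparable but not covers
are directed from left to right, all other pairs from right to left -/
def arc {n : ℕ} {α : Type} [LinearOrder α] (y : Fin n → α) (i j : Fin n) : Prop :=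
  (i < j ∧ Far y i j) ∨ (j < i ∧ ¬ Far y j i)

theorem arc_tournament {n : ℕ} {α : Type} [LinearOrder α] (y : Fin n → α) :
    IsTournament (arc y) := by
  refine ⟨?_, ?_⟩
  · rintro x (⟨h, -⟩ | ⟨h, -⟩) <;> exact lt_irrefl x h
  · intro i j hij
    rcases lt_or_gt_of_ne hij with h | h
    · simp only [arc, h, h.not_gt, true_and, false_and, or_false, false_or, not_not]
    · simp only [arc, h, h.not_gt, true_and, false_and, or_false, false_or]

theorem arc_poset {n : ℕ} {α : Type} [LinearOrder α] (y : Fin n → α) :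
    IsPosetTournament (arc y) := by
  refine ⟨arc_tournament y, inferInstance, ?_⟩
  intro u v w huv hvw h1 h2
  rcases h1 with ⟨-, s, h3, h4, h5, h6⟩ | ⟨h, -⟩
  · rcases h2 with ⟨-, t, h7, h8, h9, h10⟩ | ⟨h, -⟩
    · exact Or.inl ⟨huv.trans hvw, v, huv, hvw, h5.trans h6, h9.trans h10⟩
    · exact (lt_asymm h hvw).elim
  · exact (lt_asymm h huv).elim

theorem arc_clique {n : ℕ} {α : Type} [LinearOrder α] (y : Fin n → α) (hy : Function.Injective y) :
    CliqueNumberLE (arc y) 2 := by
  classical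
  let o : LinearOrder (Fin n) := LinearOrder.lift' y hy
  refine ⟨o, ?_⟩
  -- the backedges are the covers
  have hadj : ∀ i j : Fin n, (backedge (arc y) o).Adj i j →
      (i < j ∧ y i < y j ∧ ¬ Far y i j) ∨ (j < i ∧ y j < y i ∧ ¬ Far y j i) := by
    have key : ∀ i j : Fin n, y i < y j → arc y j i → i < j ∧ y i < y j ∧ ¬ Far y i j := by
      rintro i j h (⟨h1, t, -, -, h2, h3⟩ | ⟨h1, h2⟩)
      · exact (lt_asymm h (h2.trans h3)).elim
      · exact ⟨h1, h, h2⟩
    rintro i j (⟨h1, h2⟩ | ⟨h1, h2⟩)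
    · exact Or.inl (key i j h1 h2)
    · exact Or.inr (key j i h1 h2)
  have tri : ∀ i j k : Fin n, i < j → y i < y j → j < k → y j < y k → ¬ Far y i k → False :=
    fun i j k h1 h2 h3 h4 h5 => h5 ⟨j, h1, h3, h2, h4⟩
  intro s hs
  obtain ⟨a, b, c, hab, hac, hbc, rfl⟩ := SimpleGraph.is3Clique_iff.1 hs
  rcases hadj a b hab with ⟨h1, h2, h3⟩ | ⟨h1, h2, h3⟩ <;>
  rcases hadj b c hbc with ⟨h4, h5, h6⟩ | ⟨h4, h5, h6⟩ <;>
  rcases hadj a c hac with ⟨h7, h8, h9⟩ | ⟨h7, h8, h9⟩
  · exact tri a b c h1 h2 h4 h5 h9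
  · exact lt_asymm h7 (h1.trans h4)
  · exact tri a c b h7 h8 h4 h5 h3
  · exact tri c a b h7 h8 h1 h2 h6
  · exact tri b a c h1 h2 h7 h8 h6
  · exact tri b c a h4 h5 h7 h8 h3
  · exact lt_asymm h7 (h4.trans h1)
  · exact tri c b a h4 h5 h1 h2 h9

/-! ## The order of the words -/

/-- the height of a point -/
def height {n : ℕ} (D : ℕ → Fin n → Fin 5) (E : ℕ) (i : Fin n) :
    Lex (Lex (Fin E → Fin 5) × Fin n) := toLex (toLex (fun a : Fin E => D a i), i)

theorem height_inj {n : ℕ} (D : ℕ → Fin n → Fin 5) (E : ℕ) :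
    Function.Injective (height D E) := by
  intro i j h
  exact (Prod.mk.inj (toLex.injective h)).2

theorem word_le {n : ℕ} (D : ℕ → Fin n → Fin 5) (E : ℕ) {i j : Fin n}
    (h : height D E i < height D E j) (e : ℕ) (he : e < E) (hpre : ∀ e' < e, D e' i = D e' j) :
    D e i ≤ D e j := by
  have h1 : (toLex (fun a : Fin E => D a i) : Lex (Fin E → Fin 5)) ≤ toLex (fun a : Fin E => D a j) := by
    rcases Prod.Lex.lt_iff.1 h with h' | ⟨h', -⟩
    · exact h'.le
    · exact h'.le
  rcases h1.lt_or_eq with h2 | h2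
  · obtain ⟨a, ha1, ha2⟩ := h2
    rcases lt_trichotomy (a : ℕ) e with h3 | h3 | h3
    · exact (ha2.ne (hpre a h3)).elim
    · subst h3; exact ha2.le
    · exact (ha1 ⟨e, he⟩ h3).le
  · exact (congrFun (toLex.injective h2) ⟨e, he⟩).le

theorem lt_of_word {n : ℕ} (D : ℕ → Fin n → Fin 5) (E : ℕ) {i j : Fin n}
    (e : ℕ) (he : e < E) (hpre : ∀ e' < e, D e' i = D e' j) (h : D e i < D e j) :
    height D E i < height D E j := by
  refine Prod.Lex.lt_iff.2 (Or.inl ?_)
  exact ⟨⟨e, he⟩, fun a ha => hpre a ha, h⟩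

/-- There are poset tournaments of clique number at most two and of arbitrarily large dichromatic
number. -/
theorem result : ∀ k : ℕ, ∃ (n : ℕ) (r : Fin n → Fin n → Prop),
    IsPosetTournament r ∧ CliqueNumberLE r 2 ∧ ¬ Dicolourable r k := by
  intro k
  obtain ⟨n, E, D, hD⟩ := exists_all k
  refine ⟨n, arc (height D E), arc_poset _, arc_clique _ (height_inj D E), ?_⟩
  rintro ⟨f, hf⟩
  obtain ⟨e, he, i, j, p, q, hij, hjp, hpq, f1, f2, c1, c2, c3, d0, d3, d1, d2, hbetween⟩ := hD f
  have pre : ∀ {a b : Fin n}, cls D e a = cls D e b → ∀ e' < e, D e' a = D e' b := by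
    intro a b h e' he'
    exact congrFun h ⟨e', he'⟩
  have hip := lt_of_word D E e he (pre c2) (by rw [d0, d1]; decide)
  have hpq' := lt_of_word D E e he (pre (c2.symm.trans c3)) (by rw [d1, d2]; decide)
  have hqj := lt_of_word D E e he (pre (c3.symm.trans c1)) (by rw [d2, d3]; decide)
  have a1 : arc (height D E) i q := Or.inl ⟨hij.trans (hjp.trans hpq), p, hij.trans hjp, hpq, hip, hpq'⟩
  have a2 : arc (height D E) q j := by
    refine Or.inr ⟨hjp.trans hpq, ?_⟩
    rintro ⟨t, -, -, h1, h2⟩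
    exact lt_asymm hqj (h1.trans h2)
  have a3 : arc (height D E) j i := by
    refine Or.inr ⟨hij, ?_⟩
    rintro ⟨t, ht1, ht2, h1, h2⟩
    have hpre : ∀ e' ≤ e, (∀ e'' < e', D e'' t = D e'' i) := by
      intro e'
      induction e' with
      | zero => intro _ e'' he''; omega
      | succ e' ih =>
        intro hle e'' he''
        have ih' := ih (by omega)
        rcases Nat.lt_or_ge e'' e' with h3 | h3
        · exact ih' e'' h3
        · obtain rfl : e'' = e' := by omega
          apply le_antisymm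
          · have := word_le D E h2 e'' (by omega) (fun x hx => (ih' x hx).trans (pre c1 x (by omega)))
            rw [← pre c1 e'' (by omega)] at this
            exact this
          · exact word_le D E h1 e'' (by omega) (fun x hx => (ih' x hx).symm)
    have h3 := hpre e le_rfl
    have h4 : D e t ≤ D e j := word_le D E h2 e he (fun x hx => (h3 x hx).trans (pre c1 x hx))
    have h5 : D e t = 4 := by
      apply hbetween t ht1 ht2
      funext a
      exact h3 a a.2
    rw [h5, d3] at h4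
    exact absurd h4 (by decide)
  refine hf (f i) i ?_
  have m1 : i ∈ {x | f x = f i} := rfl
  have m2 : q ∈ {x | f x = f i} := f2.symm
  have m3 : j ∈ {x | f x = f i} := f1.symm
  exact Relation.TransGen.tail (Relation.TransGen.tail (Relation.TransGen.single ⟨m1, m2, a1⟩)
    ⟨m2, m3, a2⟩) ⟨m3, m1, a3⟩

end Pool.Agent.Results.MP_265233_co.PosetTournaments
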